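import Pool.Agent.Run7.h400.GK.StmA

/-!
# Piece HLG of the project GK of helper400 (MP_a90b0f_nt)
-/

set_option autoImplicit false

namespace Run7.h13.GK

open Run7.h400.GK
open Polynomial Finset TensorProduct nonZeroDivisors

theorem charP_of_card (Fq F : Type) [Field Fq] [Fintype Fq] [Field F] [Algebra Fq[X] F] (p q : ℕ)
    (hq : q = Fintype.card Fq) (hp : p.Prime) (hpq : p ∣ q) : CharP F p := by
  obtain ⟨p', hp'⟩ := CharP.exists Fq
  obtain ⟨n, hpr, hn⟩ := FiniteField.card Fq p'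
  have h1 : p ∣ p' := by
    rw [hq, hn] at hpq
    exact hp.dvd_of_dvd_pow hpq
  have h2 : p = p' := (Nat.prime_dvd_prime_iff_eq hp hpr).mp h1
  subst h2
  exact charP_of_injective_ringHom
    (f := (algebraMap Fq[X] F).comp (C : Fq →+* Fq[X])) (RingHom.injective _) p

theorem t_HLG (hGAL : S_GAL) (hDED : S_DED) (hJCL : S_JCL) : S_HLG := by
  intro Fq E F _ _ _ _ _ _ _ _ _ _ w θ p q d lm D Cr z hD hC hp hpq hDd hint hmax hDp hCr hz hzi
  obtain ⟨hfin, hgal, -, -⟩ := hGAL Fq E F w θ q d lm hD hC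
  have hch : CharP F p := charP_of_card Fq F p q hC.hq hp hpq
  obtain ⟨h, h0, hh⟩ := hJCL F p D z hp hch hDd.1 hDp (by
    have := hCr z
    rw [hz] at this
    rw [this, neg_neg])
  refine ⟨h, h0, hh, ?_⟩
  have hded : IsDedekindDomain (OF Fq F) := by
    exact integralClosure.isDedekindDomain Fq[X] (RatFunc Fq) F
  refine hDED (OF Fq F) F p ((AddMonoidHom.mulLeft (lm ^ (q ^ d - 2))).comp D) h hp hch ?_ ?_ ?_ h0 ?_
  · intro x y
    change lm ^ (q ^ d - 2) * D (x * y) = x * (lm ^ (q ^ d - 2) * D y) +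
      y * (lm ^ (q ^ d - 2) * D x)
    rw [hDd.1]
    ring
  · intro x
    exact ⟨⟨lm ^ (q ^ d - 2) * D (x : F), hint _ x.2⟩, rfl⟩
  · intro 𝔪 h𝔪
    obtain ⟨x, hx, y, hy, hy'⟩ := hmax 𝔪 h𝔪
    exact ⟨x, hx, y, hy, hy'⟩
  · refine ⟨⟨lm ^ (q ^ d - 2) * z, hzi⟩, ?_⟩
    change lm ^ (q ^ d - 2) * z = (lm ^ (q ^ d - 2) * D h) / h
    rw [hh]
    field_simp

end Run7.h13.GK
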